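import Pool.Agent.H27.Kato.RI

/-!
# An Orlicz space with the Kato property which is not 2-disjointly homogeneous

There is an Orlicz function `φ` such that the Orlicz space `L_φ[0,1]` with the Luxemburg norm,
which is a rearrangement invariant space on `[0, 1]`, has the Kato property (every strictly
singular operator on it is compact) but is not 2-disjointly homogeneous. This answers both
questions Q1 and Q2 of MP_8301f5_an in the negative.
-/

namespace Pool.Agent.Results.MP_8301f5_an.KatoNotTwoDH

open Pool.Agent.H27.Kato MeasureTheory Set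

theorem result : ∃ φ : OrliczFn,
    IsRISpace (OrliczSpace φ leb01) (orliczIncl φ leb01) ∧
    KatoProperty (OrliczSpace φ leb01) ∧
    ¬ TwoDH (OrliczSpace φ leb01) (orliczIncl φ leb01) := by
  obtain ⟨B, h0, h1, h2, hWP, hLR, hNB⟩ := exists_path
  have hB : IsHeight B := ⟨h0, h1, h2⟩
  have hR : Rel (phi B hB) B := rel_phi B hB
  refine ⟨phi B hB, isRISpace_orlicz _ hR.one, fun T hT => hR.kato hWP hLR T hT, ?_⟩
  intro hDH
  obtain ⟨z, hz1, hz2, hz3⟩ := hR.not_upper hNB
  obtain ⟨σ, hσ, C, hC, hCb⟩ := hDH z hz1 hz2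
  obtain ⟨N, a, ha, hlt⟩ := hz3 σ hσ C
  have := (hCb N a).2
  rw [ha, Real.sqrt_one, mul_one] at this
  exact absurd this (not_le.2 hlt)

end Pool.Agent.Results.MP_8301f5_an.KatoNotTwoDH
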